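import Pool.Agent.Helper73.CK.Der
import Pool.Agent.Helper63.CK.CutArea
import Pool.Agent.Helper84.CK.WtF
import Pool.Agent.Helper52.CK.Defs
set_option autoImplicit false
open Complex Set Filter
open scoped Real Topology

/-!
# Project CK: the cut-off function, assembly
-/

namespace Pool.Agent.Helper73.CK

open Pool.Agent.Helper52.EK Pool.Agent.Helper52.CK Pool.Agent.Helper84.CK

theorem norm_ez (θ : ℝ) : ‖Complex.exp (θ * I)‖ = 1 := Complex.norm_exp_ofReal_mul_I θ

theorem ez_sub_one (θ : ℝ) : ‖Complex.exp (θ * I) - 1‖ ≤ |θ| := by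
  have := Real.norm_exp_I_mul_ofReal_sub_one_le (x := θ)
  rw [mul_comm I] at this
  simpa using this

theorem tau_exp_le {x : ℝ} (hx : 0 < x) : tau (Real.exp (-x)) ≤ x / 2 := by
  unfold tau
  have h1 := Real.exp_pos (-x)
  rw [div_le_iff₀ (by linarith)]
  -- 1 - e^-x ≤ (x/2)(1 + e^-x)
  have key : ∀ t : ℝ, 0 ≤ t → 0 ≤ t / 2 * (1 + Real.exp (-t)) - (1 - Real.exp (-t)) := by
    intro t ht
    have hd : ∀ s : ℝ, HasDerivAt (fun t => t / 2 * (1 + Real.exp (-t)) - (1 - Real.exp (-t)))
        (1 / 2 * (1 + Real.exp (-s)) + s / 2 * (-Real.exp (-s)) - Real.exp (-s)) s := by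
      intro s
      have e1 : HasDerivAt (fun t : ℝ => Real.exp (-t)) (-Real.exp (-s)) s := by
        have := (hasDerivAt_neg' s).exp
        simpa using this
      have e2 := (((hasDerivAt_id s).div_const 2).mul (e1.const_add 1)).sub (e1.const_sub 1)
      refine e2.congr_deriv ?_
      simp only [id]
      ring
    have hm : MonotoneOn (fun t => t / 2 * (1 + Real.exp (-t)) - (1 - Real.exp (-t)))
        (Ici 0) := by
      apply monotoneOn_of_deriv_nonneg (convex_Ici 0)
      · exact fun s _ => (hd s).continuousAt.continuousWithinAt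
      · exact fun s _ => (hd s).differentiableAt.differentiableWithinAt
      · intro s hs
        rw [interior_Ici] at hs
        rw [(hd s).deriv]
        have h2 : Real.exp (-s) * (s + 1) ≤ 1 := by
          have h3 := Real.add_one_le_exp s
          have h4 : Real.exp (-s) * Real.exp s = 1 := by rw [← Real.exp_add]; simp
          nlinarith [Real.exp_pos (-s)]
        nlinarith
    have h5 := hm (self_mem_Ici) (show t ∈ Ici (0:ℝ) from ht) ht
    simpa using h5
  have := key x hx.le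
  linarith

theorem x1_lt {n x : ℝ} (hx : 0 < x) (hxn : x ≤ Real.exp (-n)) :
    Real.exp (Real.log (tau (Real.exp (-x))) + 1) < 2 * Real.exp (-n) := by
  have h0 : 0 < tau (Real.exp (-x)) := by
    unfold tau
    have h1 := Real.exp_pos (-x)
    have h2 : Real.exp (-x) < 1 := by
      rw [Real.exp_lt_one_iff]
      linarith
    apply div_pos <;> linarith
  rw [Real.exp_add, Real.exp_log h0]
  have h1 := tau_exp_le hx
  have h2 : Real.exp 1 < 2.7182818286 := Real.exp_one_lt_d9
  have h3 := Real.exp_pos (-n)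
  have h4 := Real.exp_pos 1
  nlinarith

/-- the area bound with an absolute coefficient of `l - n` (after `Pool.Agent.Helper63.CK.area`) -/
theorem area2 (B : ℝ) : ∃ C : ℝ, 0 ≤ C ∧ ∀ (n w x : ℝ) (W : ℝ → ℝ → ℝ), 2 ≤ n → 1 ≤ w → w ≤ n →
    0 < x → x ≤ Real.exp (-n) →
    Pool.Agent.Helper69.EK3.CH (Real.log (tau (Real.exp (-x))) + 1) (-1) π W →
    (∀ ξ ∈ Icc (Real.log (tau (Real.exp (-x))) + 1) (-1), ∀ η ∈ Icc (0:ℝ) π,
      0 ≤ W ξ η ∧ W ξ η ≤ 1) →
    (∀ ξ ∈ Icc (Real.log (tau (Real.exp (-x))) + 1) (-1), ∀ η ∈ Icc (0:ℝ) π, ξ ≤ -B →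
      4 * Real.exp (-(n - w)) ≤ Real.exp ξ * Real.sin η → W ξ η = 1) →
    II (Real.log (tau (Real.exp (-x))) + 1) (-1) (fun ξ η => 1 - W ξ η) ≤
      100 * w + C + 7 * (-Real.log x - n) := by
  have hπ := Real.pi_pos
  have hπ3 := Real.pi_lt_d2
  refine ⟨π * (6 + |B|), by positivity, ?_⟩
  intro n w x W hn hw hwn hx hxn hW h01 h1
  have hx2 : x ≤ Real.exp (-2) := hxn.trans (Real.exp_le_exp.mpr (by linarith))
  have hx1 : x ≤ 1 := hx2.trans (by
    rw [← Real.exp_zero]
    exact Real.exp_le_exp.mpr (by norm_num))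
  have ht4 : x / 4 ≤ tau (Real.exp (-x)) := Pool.Agent.Helper63.CK.tau_ge hx hx1
  have ht0 : 0 < tau (Real.exp (-x)) := lt_of_lt_of_le (by positivity) ht4
  have ht2 : Real.log (tau (Real.exp (-x))) ≤ -2 := by
    rw [← Real.log_exp (-2)]
    exact Real.log_le_log ht0 (Pool.Agent.Helper63.CK.tau_le hx hx2)
  have htl : Real.log x - Real.log 4 ≤ Real.log (tau (Real.exp (-x))) := by
    rw [← Real.log_div hx.ne' (by norm_num)]
    exact Real.log_le_log (by positivity) ht4
  have hlx : Real.log x ≤ -n := by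
    rw [← Real.log_exp (-n)]
    exact Real.log_le_log hx hxn
  have hl4 : Real.log 4 ≤ 3 / 2 := by
    have h2 : Real.log 4 = 2 * Real.log 2 := by
      rw [show (4:ℝ) = 2 ^ 2 by norm_num, Real.log_pow]
      norm_num
    have h3 := Real.log_two_lt_d9
    linarith
  set x₁ : ℝ := Real.log (tau (Real.exp (-x))) + 1 with hx₁
  have hle := Pool.Agent.Helper63.CK.area_le (x₁ := x₁) (x₂ := -1) (A := 1 + |B|)
    (lb := Real.log 4 + (-(n - w)))
    (by linarith) (by linarith [abs_nonneg B]) (W := W) hW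
    (fun ξ hξ η hη => (h01 ξ hξ η hη).1)
    (fun ξ hξ η hη hξA hs => by
      apply h1 ξ hξ η hη (by linarith [le_abs_self B])
      rwa [Real.exp_add, Real.exp_log (by norm_num)] at hs)
  refine hle.trans ?_
  have hm : max (Real.log 4 + (-(n - w)) - x₁) 0 ≤ 2 + w + (-Real.log x - n) := by
    apply max_le <;> linarith
  have hL : 0 ≤ -Real.log x - n := by linarith
  have h2 : π * (2 * (max (Real.log 4 + (-(n - w)) - x₁) 0 + 1) + (-1 + (1 + |B|))) ≤
      π * (2 * (2 + w + (-Real.log x - n) + 1) + |B|) := by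
    apply mul_le_mul_of_nonneg_left _ hπ.le
    linarith
  refine h2.trans ?_
  have h3 : π * (2 * w) ≤ 100 * w := by nlinarith
  have h6 : π * 2 * (-Real.log x - n) ≤ 7 * (-Real.log x - n) := by
    apply mul_le_mul_of_nonneg_right _ hL
    linarith
  have h7 : π * (2 * (2 + w + (-Real.log x - n) + 1) + |B|) =
      π * (2 * w) + π * 2 * (-Real.log x - n) + π * (6 + |B|) := by ring
  rw [h7]
  linarith

/-- the statement used by the assembly -/
def CutStmt : Prop := ∃ C₀ : ℝ, 0 ≤ C₀ ∧ ∀ K ε A : ℝ, 0 < K → 0 < ε → ∃ s C n₀ : ℝ, 0 < s ∧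
    s ≤ 1 / 2 ∧ 0 ≤ C ∧ ∀ n : ℝ, n₀ ≤ n → ∃ W0 : ℂ → ℝ, Cutf (Real.exp (-n)) W0 ∧
      ∀ x θ : ℝ, 0 < x → x ≤ Real.exp (-n) → |θ| ≤ s →
        (∃ W₁ W₂ : ℝ → ℝ → ℝ, WtF (Real.log (tau (Real.exp (-x))) + 1) (-1) K
          (fun ξ η => W0 (Complex.exp (θ * I) * zf (pt ξ η))) W₁ W₂) ∧
        (∀ z : ℂ, W0 (Complex.exp (θ * I) * z) ≠ 0 → ‖z‖ < 1 ∧
          Real.exp (Real.log (tau (Real.exp (-x))) + 1) < ‖1 - z‖ / ‖1 + z‖ ∧
          ‖1 - z‖ / ‖1 + z‖ ≤ Real.exp (-A)) ∧
        II (Real.log (tau (Real.exp (-x))) + 1) (-1)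
          (fun ξ η => 1 - W0 (Complex.exp (θ * I) * zf (pt ξ η))) ≤
            ε * (-Real.log x) + C + C₀ * (-Real.log x - n)

/-- **the cut-off function** -/
theorem cut : CutStmt := by
  refine ⟨7, by norm_num, ?_⟩
  intro K ε A hK hε
  obtain ⟨f, f₁, M, hf⟩ := exists_stp
  -- the constants
  set k : ℝ := max 2 (max (A + 1) (4 * M / K)) with hk
  have hk2 : 2 ≤ k := le_max_left _ _
  have hkA : A + 1 ≤ k := (le_max_left _ _).trans (le_max_right _ _)
  have hkM : 4 * M / K ≤ k := (le_max_right _ _).trans (le_max_right _ _)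
  have hk0 : 0 < k := by linarith
  set s : ℝ := Real.exp (-(2 * k)) / 2 with hs
  have hs0 : 0 < s := by positivity
  have hsk : s ≤ Real.exp (-(2 * k)) := by
    rw [hs]; linarith [Real.exp_pos (-(2 * k))]
  have hs1 : s ≤ 1 / 2 := by
    have : Real.exp (-(2 * k)) ≤ 1 := Real.exp_le_one_iff.2 (by linarith)
    rw [hs]; linarith
  set ε' : ℝ := min (ε / 100) (1 / 2) with hε'
  have hε'0 : 0 < ε' := lt_min (by positivity) (by norm_num)
  have hε'1 : ε' ≤ ε / 100 := min_le_left _ _
  have hε'2 : ε' ≤ 1 / 2 := min_le_right _ _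
  obtain ⟨C, hC0, hC⟩ := area2 (2 * k + 2)
  set n₀ : ℝ := max 2 (max (1 / ε') (2 * M / (K * ε'))) with hn₀
  refine ⟨s, C, n₀, hs0, hs1, hC0, ?_⟩
  intro n hn
  have hn2 : 2 ≤ n := (le_max_left _ _).trans hn
  have hn3 : 1 / ε' ≤ n := ((le_max_left _ _).trans (le_max_right _ _)).trans hn
  have hn4 : 2 * M / (K * ε') ≤ n := ((le_max_right _ _).trans (le_max_right _ _)).trans hn
  set w : ℝ := ε' * n with hw
  have hw1 : 1 ≤ w := by
    rw [div_le_iff₀ hε'0] at hn3
    linarith
  have hw0 : 0 < w := by linarith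
  have hwn : w ≤ n := by
    rw [hw]; nlinarith
  have hMw : M / w ≤ K / 2 := by
    rw [div_le_iff₀ (by positivity)] at hn4
    rw [div_le_iff₀ hw0, hw]
    nlinarith
  have hMk : 2 * M / k ≤ K / 2 := by
    rw [div_le_iff₀ hK] at hkM
    rw [div_le_iff₀ hk0]
    nlinarith
  have hbn := Real.exp_pos (-n)
  have hek : Real.exp (-k) ≤ Real.exp (-2) := Real.exp_le_exp.2 (by linarith)
  have he2 : Real.exp (-2) ≤ 0.14 := by
    have h1 : Real.exp (-1) < 0.3678794412 := Real.exp_neg_one_lt_d9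
    have h2 : Real.exp (-2) = Real.exp (-1) * Real.exp (-1) := by
      rw [← Real.exp_add]; norm_num
    have h3 := Real.exp_pos (-1)
    rw [h2]
    nlinarith
  have hs2 : s ≤ Real.exp (-k) := by
    have : Real.exp (-(2 * k)) ≤ Real.exp (-k) := Real.exp_le_exp.2 (by linarith)
    linarith
  refine ⟨W0 f k w n, ⟨W0_cont hf k n hw0, fun z => (W0_bd hf k w n z).1,
    fun z => (W0_bd hf k w n z).2, ?_⟩, ?_⟩
  · intro z hz
    have a1 : 8 * Real.exp (-n) < 1 - ‖z‖ ^ 2 := by
      by_contra h1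
      exact hz (W0_zero1 hf hw0 (not_lt.1 h1))
    have a2 : ‖z - 1‖ < Real.exp (-k) := by
      by_contra h1
      exact hz (W0_zero2 hf hk0 (not_lt.1 h1))
    have a3 : 1 ≤ ‖z‖ + ‖z - 1‖ := by
      have := norm_sub_le z (z - 1)
      simpa using this
    refine ⟨?_, ?_, by linarith⟩
    · have h1 : Real.exp (-1) < 0.3678794412 := Real.exp_neg_one_lt_d9
      linarith
    · have b1 : ‖z‖ ^ 2 ≤ Real.exp (-2 * Real.exp (-n)) ^ 2 := by
        have b2 := Real.add_one_le_exp (-4 * Real.exp (-n))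
        have b3 : Real.exp (-2 * Real.exp (-n)) ^ 2 = Real.exp (-4 * Real.exp (-n)) := by
          rw [sq, ← Real.exp_add]
          congr 1
          ring
        rw [b3]
        linarith
      exact (sq_le_sq₀ (norm_nonneg z) (Real.exp_pos _).le).1 b1
  · intro x θ hx hxn hθ
    set ζ : ℂ := Complex.exp (θ * I) with hζ
    have hz1 : ‖ζ‖ = 1 := norm_ez θ
    have hz2 : ‖ζ - 1‖ ≤ s := (ez_sub_one θ).trans hθ
    have hx1 := x1_lt hx hxn
    set x₁ : ℝ := Real.log (tau (Real.exp (-x))) + 1 with hx₁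
    simp only [Om_eq f k w n hz1]
    have hCH : Pool.Agent.Helper69.EK3.CH x₁ (-1) π (Om f k w n ζ) := by
      rintro ⟨ξ, η⟩ ⟨hξ, hη⟩
      exact (Om_cont hf hw0 hz1 (sin_nn hη)).continuousWithinAt
    have hb01 : ∀ ξ η : ℝ, 0 ≤ Om f k w n ζ ξ η ∧ Om f k w n ζ ξ η ≤ 1 := by
      intro ξ η
      rw [← Om_eq f k w n hz1 ξ η]
      exact W0_bd hf k w n _
    refine ⟨⟨Om1 f f₁ k w n ζ, Om2 f f₁ k w n ζ, ?_⟩, ?_, ?_⟩
    · refine ⟨hCH, ?_, ?_, ?_, ?_, ?_, ?_, fun ξ _ η _ => hb01 ξ η, ?_, ?_⟩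
      · rintro ⟨ξ, η⟩ ⟨hξ, hη⟩
        exact (Om1_cont hf hw0 hz1 (sin_nn hη)).continuousWithinAt
      · rintro ⟨ξ, η⟩ ⟨hξ, hη⟩
        exact (Om2_cont hf hw0 hz1 (sin_nn hη)).continuousWithinAt
      · intro ξ hξ η hη
        exact Om_d1 hf hw0 hz1 (sin_nn hη)
      · intro ξ hξ η hη
        exact Om_d2 hf hw0 hz1 (sin_nn hη)
      · intro η hη
        apply Om_zero hf hw0
        exact (yy_le (sin_nn hη)).trans (by linarith)
      · intro η hη
        -- far end
        have hs3 := sin_nn hη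
        change Om f k w n ζ (-1) η = 0
        unfold Om
        have h3 : Real.exp (-k) ≤ ‖vv ζ (-1) η‖ := by
          have h4 : ‖zf (pt (-1) η) - 1‖ ≤ ‖vv ζ (-1) η‖ + s := by
            have h2 : zf (pt (-1) η) - 1 = ζ⁻¹ * (vv ζ (-1) η - (ζ - 1)) := by
              have hz : ζ ≠ 0 := Complex.exp_ne_zero _
              unfold vv
              field_simp
              ring
            rw [h2, norm_mul, norm_inv, hz1, inv_one, one_mul]
            exact (norm_sub_le _ _).trans (by linarith)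
          have h5 : 0.5 ≤ ‖zf (pt (-1) η) - 1‖ := by
            rw [norm_zf_sub_one hs3]
            have h6 : ‖I + Complex.exp (pt (-1) η)‖ ≤ 1 + Real.exp (-1) := by
              have := norm_add_le I (Complex.exp (pt (-1) η))
              rwa [norm_I, norm_exp_pt] at this
            have h7 := norm_den_ge (ξ := -1) hs3
            rw [le_div_iff₀ (by linarith)]
            have h8 : 0.36787944116 < Real.exp (-1) := Real.exp_neg_one_gt_d9
            nlinarith
          linarith
        rw [hf.z _ (ar2_nonpos hk0 h3), mul_zero]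
      · intro ξ hξ η hη
        exact (Om1_bd hf hk0 hw0 hz1 hz2 hsk (sin_nn hη)).trans (by linarith)
      · intro ξ hξ η hη
        exact (Om2_bd hf hk0 hw0 hz1 hz2 hsk (sin_nn hη)).trans (by linarith)
    swap
    · have h1 := hC n w x (Om f k w n ζ) hn2 hw1 hwn hx hxn hCH (fun ξ _ η _ => hb01 ξ η) ?_
      · refine h1.trans ?_
        have h2 : n ≤ -Real.log x := by
          have := Real.log_le_log hx hxn
          rw [Real.log_exp] at this
          linarith
        have h3 : 100 * w ≤ ε * (-Real.log x) := by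
          rw [hw]
          have h4 : 100 * ε' ≤ ε := by linarith
          have h5 : 0 ≤ n := by linarith
          calc 100 * (ε' * n) = (100 * ε') * n := by ring
            _ ≤ ε * n := mul_le_mul_of_nonneg_right h4 h5
            _ ≤ ε * (-Real.log x) := mul_le_mul_of_nonneg_left h2 hε.le
        linarith
      · intro ξ hξ η hη hξB hy
        have hs3 := sin_nn hη
        rw [← Om_eq f k w n hz1 ξ η]
        apply W0_one hf hk0 hw0
        · have h4 := yy_ge (ξ := ξ) hs3 hξ.2
          rw [norm_mul, hz1, one_mul]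
          have h5 : yy ξ η = 1 - ‖zf (pt ξ η)‖ ^ 2 := rfl
          rw [← h5]
          nlinarith
        · have h4 : ‖ζ * zf (pt ξ η) - 1‖ ≤ ‖zf (pt ξ η) - 1‖ + s := by
            have h2 : ζ * zf (pt ξ η) - 1 = ζ * (zf (pt ξ η) - 1) + (ζ - 1) := by ring
            rw [h2]
            refine (norm_add_le _ _).trans ?_
            rw [norm_mul, hz1, one_mul]
            linarith
          have h5 : ‖zf (pt ξ η) - 1‖ ≤ 2 * Real.exp ξ := by
            rw [norm_zf_sub_one hs3]
            have h7 := norm_den_ge (ξ := ξ) hs3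
            exact div_le_self (by positivity) h7
          have h6 : Real.exp ξ ≤ Real.exp (-(2 * k)) * 0.14 := by
            have : Real.exp ξ ≤ Real.exp (-(2 * k) + -2) := Real.exp_le_exp.2 (by linarith)
            rw [Real.exp_add] at this
            nlinarith [Real.exp_pos (-(2 * k))]
          have h8 := Real.exp_pos (-(2 * k))
          linarith
    · intro z hz
      have hnz : ‖ζ * z‖ = ‖z‖ := by rw [norm_mul, hz1, one_mul]
      have a1 : 8 * Real.exp (-n) < 1 - ‖z‖ ^ 2 := by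
        by_contra h1
        refine hz (W0_zero1 hf hw0 ?_)
        rw [hnz]
        exact not_lt.1 h1
      have a2 : ‖ζ * z - 1‖ < Real.exp (-k) := by
        by_contra h1
        exact hz (W0_zero2 hf hk0 (not_lt.1 h1))
      have a3 : ‖z‖ < 1 := by nlinarith [norm_nonneg z]
      have a4 : ‖1 - z‖ ≤ ‖ζ * z - 1‖ + s := by
        have h2 : 1 - z = ζ⁻¹ * ((ζ - 1) - (ζ * z - 1)) := by
          have hz : ζ ≠ 0 := Complex.exp_ne_zero _
          field_simp
          ring
        rw [h2, norm_mul, norm_inv, hz1, inv_one, one_mul]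
        exact (norm_sub_le _ _).trans (by linarith)
      have a5 : 2 ≤ ‖1 + z‖ + ‖1 - z‖ := by
        have := norm_add_le (1 + z) (1 - z)
        have h3 : (1 + z) + (1 - z) = 2 := by ring
        rw [h3] at this
        simpa using this
      have a6 : ‖1 - z‖ ≤ 2 * Real.exp (-k) := by linarith
      have a7 : 1 ≤ ‖1 + z‖ := by linarith
      have a8 : ‖1 + z‖ ≤ 2 := by
        have := norm_add_le 1 z
        rw [norm_one] at this
        linarith
      have a9 : 4 * Real.exp (-n) < ‖1 - z‖ := by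
        have h1 : 1 - ‖z‖ ≤ ‖1 - z‖ := by
          have := norm_sub_norm_le (1:ℂ) z
          rwa [norm_one] at this
        nlinarith [norm_nonneg z]
      refine ⟨a3, ?_, ?_⟩
      · refine hx1.trans ?_
        rw [lt_div_iff₀ (by linarith)]
        nlinarith
      · rw [div_le_iff₀ (by linarith)]
        have h1 : 2 * Real.exp (-k) ≤ Real.exp (-A) := by
          have h2 : Real.exp (-k) ≤ Real.exp (-A) * Real.exp (-1) := by
            rw [← Real.exp_add]
            exact Real.exp_le_exp.2 (by linarith)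
          have h3 : Real.exp (-1) < 0.3678794412 := Real.exp_neg_one_lt_d9
          nlinarith [Real.exp_pos (-A)]
        nlinarith [Real.exp_pos (-A)]

end Pool.Agent.Helper73.CK
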