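import Pool.Agent.Helper73.CK.W0
set_option autoImplicit false
open Complex Set Filter
open scoped Real Topology

/-!
# Project CK: the partial derivatives of the cut-off function in the strip of a target
-/

namespace Pool.Agent.Helper73.CK

open Pool.Agent.Helper52.EK

variable {f f₁ : ℝ → ℝ} {M : ℝ}

/-- the second distance -/
noncomputable def vv (ζ : ℂ) (ξ η : ℝ) : ℂ := ζ * zf (pt ξ η) - 1

noncomputable def E1 (ζ : ℂ) (ξ η : ℝ) : ℝ := (ζ * zd (pt ξ η) / vv ζ ξ η).re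

noncomputable def E2 (ζ : ℂ) (ξ η : ℝ) : ℝ := (ζ * (zd (pt ξ η) * I) / vv ζ ξ η).re

/-- the weight -/
noncomputable def Om (f : ℝ → ℝ) (k w n : ℝ) (ζ : ℂ) (ξ η : ℝ) : ℝ :=
  f (ar1 w n (yy ξ η)) * f (ar2 k ‖vv ζ ξ η‖)

noncomputable def Om1 (f f₁ : ℝ → ℝ) (k w n : ℝ) (ζ : ℂ) (ξ η : ℝ) : ℝ :=
  f₁ (ar1 w n (yy ξ η)) * (D1 ξ η / w) * f (ar2 k ‖vv ζ ξ η‖) +
    f (ar1 w n (yy ξ η)) * (f₁ (ar2 k ‖vv ζ ξ η‖) * (-E1 ζ ξ η / k))

noncomputable def Om2 (f f₁ : ℝ → ℝ) (k w n : ℝ) (ζ : ℂ) (ξ η : ℝ) : ℝ :=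
  f₁ (ar1 w n (yy ξ η)) * (D2 ξ η / w) * f (ar2 k ‖vv ζ ξ η‖) +
    f (ar1 w n (yy ξ η)) * (f₁ (ar2 k ‖vv ζ ξ η‖) * (-E2 ζ ξ η / k))

theorem Om_eq (f : ℝ → ℝ) (k w n : ℝ) {ζ : ℂ} (hζ : ‖ζ‖ = 1) (ξ η : ℝ) :
    W0 f k w n (ζ * zf (pt ξ η)) = Om f k w n ζ ξ η := by
  unfold W0 Om yy vv
  rw [norm_mul, hζ, one_mul]

theorem sin_nn {η : ℝ} (hη : η ∈ Icc (0:ℝ) π) : 0 ≤ Real.sin η :=
  Real.sin_nonneg_of_nonneg_of_le_pi hη.1 hη.2

theorem Om_zero (h : Stp f f₁ M) {k w n : ℝ} (hw : 0 < w) (ζ : ℂ) {ξ η : ℝ}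
    (hy : yy ξ η ≤ 8 * Real.exp (-n)) : Om f k w n ζ ξ η = 0 := by
  unfold Om
  rw [h.z _ (ar1_nonpos hw hy), zero_mul]

theorem Om1_zero (h : Stp f f₁ M) {k w n : ℝ} (hw : 0 < w) (ζ : ℂ) {ξ η : ℝ}
    (hy : yy ξ η ≤ 8 * Real.exp (-n)) : Om1 f f₁ k w n ζ ξ η = 0 := by
  unfold Om1
  rw [h.z _ (ar1_nonpos hw hy), h.z1 _ (ar1_nonpos hw hy)]
  ring

theorem Om2_zero (h : Stp f f₁ M) {k w n : ℝ} (hw : 0 < w) (ζ : ℂ) {ξ η : ℝ}
    (hy : yy ξ η ≤ 8 * Real.exp (-n)) : Om2 f f₁ k w n ζ ξ η = 0 := by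
  unfold Om2
  rw [h.z _ (ar1_nonpos hw hy), h.z1 _ (ar1_nonpos hw hy)]
  ring

theorem vv_ne {ζ : ℂ} (hζ : ‖ζ‖ = 1) {ξ η : ℝ} (hy : 0 < yy ξ η) : vv ζ ξ η ≠ 0 := by
  intro h0
  unfold vv at h0
  rw [sub_eq_zero] at h0
  have h1 : ‖ζ * zf (pt ξ η)‖ = 1 := by rw [h0, norm_one]
  rw [norm_mul, hζ, one_mul] at h1
  have := zf_lt_one hy
  linarith

/-- continuity of `yy` along the two directions -/
theorem contAt_yy1 {ξ η : ℝ} (h : 0 ≤ Real.sin η) : ContinuousAt (fun t => yy t η) ξ :=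
  ContinuousAt.comp (f := fun t : ℝ => (t, η)) (g := fun p : ℝ × ℝ => yy p.1 p.2)
    (contAt_yy h) (by fun_prop)

theorem contAt_yy2 {ξ η : ℝ} (h : 0 ≤ Real.sin η) : ContinuousAt (fun t => yy ξ t) η :=
  ContinuousAt.comp (f := fun t : ℝ => (ξ, t)) (g := fun p : ℝ × ℝ => yy p.1 p.2)
    (contAt_yy h) (by fun_prop)

theorem ar1_eq {w n y : ℝ} (hy : Real.exp (-n) ≤ y) :
    ar1 w n y = (Real.log y + n - Real.log 8) / w := by
  unfold ar1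
  rw [max_eq_left hy]

/-- derivative of the first factor -/
theorem der1 (h : Stp f f₁ M) {w n : ℝ} {g : ℝ → ℝ} {t g' : ℝ}
    (hy : 8 * Real.exp (-n) ≤ g t) (hg : ContinuousAt g t)
    (hd : HasDerivAt (fun s => Real.log (g s)) g' t) :
    HasDerivAt (fun s => f (ar1 w n (g s))) (f₁ (ar1 w n (g t)) * (g' / w)) t := by
  have h0 : Real.exp (-n) < g t := by linarith [Real.exp_pos (-n)]
  have h1 : ∀ᶠ s in 𝓝 t, Real.exp (-n) < g s := hg.eventually_const_lt h0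
  have h2 : HasDerivAt (fun s => (Real.log (g s) + n - Real.log 8) / w) (g' / w) t :=
    ((hd.add_const n).sub_const (Real.log 8)).div_const w
  have h3 : (fun s => ar1 w n (g s)) =ᶠ[𝓝 t] fun s => (Real.log (g s) + n - Real.log 8) / w := by
    filter_upwards [h1] with s hs
    exact ar1_eq hs.le
  have h4 := h2.congr_of_eventuallyEq h3
  exact (h.d _).comp t h4

/-- derivative of the second factor -/
theorem der2 (h : Stp f f₁ M) {k : ℝ} {v : ℝ → ℂ} {v' : ℂ} {t : ℝ} (hv : HasDerivAt v v' t)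
    (h0 : v t ≠ 0) :
    HasDerivAt (fun s => f (ar2 k ‖v s‖)) (f₁ (ar2 k ‖v t‖) * (-(v' / v t).re / k)) t := by
  have h1 : HasDerivAt (fun s => ar2 k ‖v s‖) (-(v' / v t).re / k) t := by
    unfold ar2
    exact ((hasDerivAt_log_norm hv h0).const_sub (-k)).div_const k
  exact (h.d _).comp t h1

theorem hasDerivAt_vv_xi {ζ : ℂ} {ξ η : ℝ} (h : 0 ≤ Real.sin η) :
    HasDerivAt (fun t => vv ζ t η) (ζ * zd (pt ξ η)) ξ := by
  unfold vv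
  have h0 := hasDerivAt_zf (ξ := ξ) h
  have h1 : HasDerivAt (fun t : ℝ => zf (pt t η)) (zd (pt ξ η) * 1) ξ :=
    HasDerivAt.comp (h₂ := zf) (h := fun t : ℝ => pt t η) ξ h0 (hasDerivAt_pt_xi ξ η)
  rw [mul_one] at h1
  exact (h1.const_mul ζ).sub_const 1

theorem hasDerivAt_vv_eta {ζ : ℂ} {ξ η : ℝ} (h : 0 ≤ Real.sin η) :
    HasDerivAt (fun t => vv ζ ξ t) (ζ * (zd (pt ξ η) * I)) η := by
  unfold vv
  have h0 := hasDerivAt_zf (ξ := ξ) h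
  have h1 : HasDerivAt (fun t : ℝ => zf (pt ξ t)) (zd (pt ξ η) * I) η :=
    HasDerivAt.comp (h₂ := zf) (h := fun t : ℝ => pt ξ t) η h0 (hasDerivAt_pt_eta ξ η)
  exact (h1.const_mul ζ).sub_const 1

theorem Om_d1 (h : Stp f f₁ M) {k w n : ℝ} (hw : 0 < w) {ζ : ℂ} (hζ : ‖ζ‖ = 1) {ξ η : ℝ}
    (hs : 0 ≤ Real.sin η) :
    HasDerivAt (fun t => Om f k w n ζ t η) (Om1 f f₁ k w n ζ ξ η) ξ := by
  have hn := Real.exp_pos (-n)
  rcases lt_or_ge (yy ξ η) (8 * Real.exp (-n)) with hy | hy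
  · rw [Om1_zero h hw ζ hy.le]
    have h1 : ∀ᶠ t in 𝓝 ξ, yy t η < 8 * Real.exp (-n) :=
      (contAt_yy1 hs).eventually_lt_const hy
    have h2 : (fun t => Om f k w n ζ t η) =ᶠ[𝓝 ξ] fun _ => 0 := by
      filter_upwards [h1] with t ht
      exact Om_zero h hw ζ ht.le
    exact (hasDerivAt_const ξ (0:ℝ)).congr_of_eventuallyEq h2
  · have hy0 : 0 < yy ξ η := by linarith
    have hsp := sin_pos_of_yy hs hy0
    have a := der1 (w := w) (g := fun t => yy t η) h hy (contAt_yy1 hs) (hasDerivAt_logyy_xi hsp)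
    have b := der2 (k := k) h (hasDerivAt_vv_xi (ζ := ζ) (ξ := ξ) hs) (vv_ne hζ hy0)
    exact a.mul b

theorem Om_d2 (h : Stp f f₁ M) {k w n : ℝ} (hw : 0 < w) {ζ : ℂ} (hζ : ‖ζ‖ = 1) {ξ η : ℝ}
    (hs : 0 ≤ Real.sin η) :
    HasDerivAt (fun t => Om f k w n ζ ξ t) (Om2 f f₁ k w n ζ ξ η) η := by
  have hn := Real.exp_pos (-n)
  rcases lt_or_ge (yy ξ η) (8 * Real.exp (-n)) with hy | hy
  · rw [Om2_zero h hw ζ hy.le]
    have h1 : ∀ᶠ t in 𝓝 η, yy ξ t < 8 * Real.exp (-n) :=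
      (contAt_yy2 hs).eventually_lt_const hy
    have h2 : (fun t => Om f k w n ζ ξ t) =ᶠ[𝓝 η] fun _ => 0 := by
      filter_upwards [h1] with t ht
      exact Om_zero h hw ζ ht.le
    exact (hasDerivAt_const η (0:ℝ)).congr_of_eventuallyEq h2
  · have hy0 : 0 < yy ξ η := by linarith
    have hsp := sin_pos_of_yy hs hy0
    have a := der1 (w := w) (g := fun t => yy ξ t) h hy (contAt_yy2 hs) (hasDerivAt_logyy_eta hsp)
    have b := der2 (k := k) h (hasDerivAt_vv_eta (ζ := ζ) (ξ := ξ) hs) (vv_ne hζ hy0)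
    exact a.mul b

/-! ### bounds -/

theorem E_bd {ζ : ℂ} (hζ : ‖ζ‖ = 1) {s k : ℝ} (hs1 : ‖ζ - 1‖ ≤ s) (hsk : s ≤ Real.exp (-(2 * k)))
    {ξ η : ℝ} (hs : 0 ≤ Real.sin η) (hv : Real.exp (-(2 * k)) ≤ ‖vv ζ ξ η‖) (u : ℂ)
    (hu : ‖u‖ = 1) : |(ζ * (zd (pt ξ η) * u) / vv ζ ξ η).re| ≤ 2 := by
  have h0 : 0 < ‖vv ζ ξ η‖ := lt_of_lt_of_le (Real.exp_pos _) hv
  refine (Complex.abs_re_le_norm _).trans ?_
  rw [norm_div, norm_mul, norm_mul, hζ, hu, one_mul, mul_one, div_le_iff₀ h0]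
  have h1 := norm_zd_le (ξ := ξ) hs
  have h2 : zf (pt ξ η) - 1 = ζ⁻¹ * (vv ζ ξ η - (ζ - 1)) := by
    have hz : ζ ≠ 0 := by
      intro h3
      rw [h3] at hζ
      simp at hζ
    unfold vv
    field_simp
    ring
  have h3 : ‖zf (pt ξ η) - 1‖ ≤ ‖vv ζ ξ η‖ + s := by
    rw [h2, norm_mul, norm_inv, hζ, inv_one, one_mul]
    exact (norm_sub_le _ _).trans (by linarith)
  linarith

theorem E1_bd {ζ : ℂ} (hζ : ‖ζ‖ = 1) {s k : ℝ} (hs1 : ‖ζ - 1‖ ≤ s)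
    (hsk : s ≤ Real.exp (-(2 * k))) {ξ η : ℝ} (hs : 0 ≤ Real.sin η)
    (hv : Real.exp (-(2 * k)) ≤ ‖vv ζ ξ η‖) : |E1 ζ ξ η| ≤ 2 := by
  have := E_bd hζ hs1 hsk hs hv 1 (by simp)
  rwa [mul_one] at this

theorem E2_bd {ζ : ℂ} (hζ : ‖ζ‖ = 1) {s k : ℝ} (hs1 : ‖ζ - 1‖ ≤ s)
    (hsk : s ≤ Real.exp (-(2 * k))) {ξ η : ℝ} (hs : 0 ≤ Real.sin η)
    (hv : Real.exp (-(2 * k)) ≤ ‖vv ζ ξ η‖) : |E2 ζ ξ η| ≤ 2 :=
  E_bd hζ hs1 hsk hs hv I (by simp)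

theorem abs_f (h : Stp f f₁ M) (t : ℝ) : |f t| ≤ 1 := by
  rw [abs_of_nonneg (h.b t).1]
  exact (h.b t).2

theorem second_bd (h : Stp f f₁ M) {k : ℝ} (hk : 0 < k) {r e : ℝ} (hr0 : 0 ≤ r)
    (he : Real.exp (-(2 * k)) ≤ r → |e| ≤ 2) : |f₁ (ar2 k r) * (-e / k)| ≤ 2 * M / k := by
  rcases le_or_gt (Real.exp (-(2 * k))) r with hr | hr
  · rw [abs_mul, abs_div, abs_neg, abs_of_pos hk]
    have h1 := h.m (ar2 k r)
    have h2 := he hr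
    rw [mul_div_assoc', div_le_div_iff_of_pos_right hk]
    nlinarith [abs_nonneg (f₁ (ar2 k r)), abs_nonneg e, h.m0]
  · rcases hr0.eq_or_lt with h0 | h0
    · rw [← h0]
      have h3 : ar2 k 0 ≤ 0 := by
        unfold ar2
        rw [Real.log_zero]
        apply div_nonpos_of_nonpos_of_nonneg _ hk.le
        linarith
      rw [h.z1 _ h3, zero_mul, abs_zero]
      exact div_nonneg (by linarith [h.m0]) hk.le
    · rw [h.o1 _ (ar2_ge_one hk h0 hr.le), zero_mul, abs_zero]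
      exact div_nonneg (by linarith [h.m0]) hk.le

theorem Om1_bd (h : Stp f f₁ M) {k w n : ℝ} (hk : 0 < k) (hw : 0 < w) {ζ : ℂ} (hζ : ‖ζ‖ = 1)
    {s : ℝ} (hs1 : ‖ζ - 1‖ ≤ s) (hsk : s ≤ Real.exp (-(2 * k))) {ξ η : ℝ}
    (hs : 0 ≤ Real.sin η) : |Om1 f f₁ k w n ζ ξ η| * Real.sin η ≤ M / w + 2 * M / k := by
  have b1 := second_bd h hk (norm_nonneg (vv ζ ξ η)) (E1_bd hζ hs1 hsk hs)
  have b2 := abs_D1 (ξ := ξ) hs
  have b3 := h.m (ar1 w n (yy ξ η))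
  have b4 := abs_f h (ar2 k ‖vv ζ ξ η‖)
  have b5 := abs_f h (ar1 w n (yy ξ η))
  have b6 := Real.sin_le_one η
  have c1 : |f₁ (ar1 w n (yy ξ η)) * (D1 ξ η / w) * f (ar2 k ‖vv ζ ξ η‖)| ≤ M / w := by
    rw [abs_mul, abs_mul, abs_div, abs_of_pos hw]
    have d1 : |f₁ (ar1 w n (yy ξ η))| * (|D1 ξ η| / w) ≤ M * (1 / w) := by
      apply mul_le_mul b3 _ (by positivity) h.m0
      exact div_le_div_of_nonneg_right b2 hw.le
    have d2 : 0 ≤ M * (1 / w) := mul_nonneg h.m0 (by positivity)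
    calc |f₁ (ar1 w n (yy ξ η))| * (|D1 ξ η| / w) * |f (ar2 k ‖vv ζ ξ η‖)|
        ≤ M * (1 / w) * 1 := mul_le_mul d1 b4 (abs_nonneg _) d2
      _ = M / w := by ring
  have c2 : |f (ar1 w n (yy ξ η)) * (f₁ (ar2 k ‖vv ζ ξ η‖) * (-E1 ζ ξ η / k))| ≤ 2 * M / k := by
    rw [abs_mul]
    have d2 : 0 ≤ 2 * M / k := div_nonneg (by linarith [h.m0]) hk.le
    calc |f (ar1 w n (yy ξ η))| * |f₁ (ar2 k ‖vv ζ ξ η‖) * (-E1 ζ ξ η / k)|
        ≤ 1 * (2 * M / k) := mul_le_mul b5 b1 (abs_nonneg _) zero_le_one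
      _ = 2 * M / k := one_mul _
  have c3 : |Om1 f f₁ k w n ζ ξ η| ≤ M / w + 2 * M / k := by
    unfold Om1
    exact (abs_add_le _ _).trans (add_le_add c1 c2)
  have c4 : 0 ≤ M / w + 2 * M / k := (abs_nonneg _).trans c3
  calc |Om1 f f₁ k w n ζ ξ η| * Real.sin η ≤ (M / w + 2 * M / k) * 1 :=
        mul_le_mul c3 b6 hs c4
    _ = _ := mul_one _

theorem Om2_bd (h : Stp f f₁ M) {k w n : ℝ} (hk : 0 < k) (hw : 0 < w) {ζ : ℂ} (hζ : ‖ζ‖ = 1)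
    {s : ℝ} (hs1 : ‖ζ - 1‖ ≤ s) (hsk : s ≤ Real.exp (-(2 * k))) {ξ η : ℝ}
    (hs : 0 ≤ Real.sin η) : |Om2 f f₁ k w n ζ ξ η| * Real.sin η ≤ M / w + 2 * M / k := by
  have b1 := second_bd h hk (norm_nonneg (vv ζ ξ η)) (E2_bd hζ hs1 hsk hs)
  have b2 := abs_D2 (ξ := ξ) hs
  have b3 := h.m (ar1 w n (yy ξ η))
  have b4 := abs_f h (ar2 k ‖vv ζ ξ η‖)
  have b5 := abs_f h (ar1 w n (yy ξ η))
  have b6 := Real.sin_le_one η
  have c1 : |f₁ (ar1 w n (yy ξ η)) * (D2 ξ η / w) * f (ar2 k ‖vv ζ ξ η‖)| * Real.sin η ≤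
      M / w := by
    rw [abs_mul, abs_mul, abs_div, abs_of_pos hw]
    have d1 : |f₁ (ar1 w n (yy ξ η))| * (|D2 ξ η| * Real.sin η / w) ≤ M * (1 / w) := by
      apply mul_le_mul b3 _ (by positivity) h.m0
      exact div_le_div_of_nonneg_right b2 hw.le
    have d2 : 0 ≤ M * (1 / w) := mul_nonneg h.m0 (by positivity)
    calc |f₁ (ar1 w n (yy ξ η))| * (|D2 ξ η| / w) * |f (ar2 k ‖vv ζ ξ η‖)| * Real.sin η
        = |f₁ (ar1 w n (yy ξ η))| * (|D2 ξ η| * Real.sin η / w) * |f (ar2 k ‖vv ζ ξ η‖)| := by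
          ring
      _ ≤ M * (1 / w) * 1 := mul_le_mul d1 b4 (abs_nonneg _) d2
      _ = M / w := by ring
  have c2 : |f (ar1 w n (yy ξ η)) * (f₁ (ar2 k ‖vv ζ ξ η‖) * (-E2 ζ ξ η / k))| * Real.sin η ≤
      2 * M / k := by
    rw [abs_mul]
    have d2 : 0 ≤ 2 * M / k := div_nonneg (by linarith [h.m0]) hk.le
    calc |f (ar1 w n (yy ξ η))| * |f₁ (ar2 k ‖vv ζ ξ η‖) * (-E2 ζ ξ η / k)| * Real.sin η
        ≤ 1 * (2 * M / k) * 1 :=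
          mul_le_mul (mul_le_mul b5 b1 (abs_nonneg _) zero_le_one) b6 hs (by linarith)
      _ = 2 * M / k := by ring
  unfold Om2
  calc |f₁ (ar1 w n (yy ξ η)) * (D2 ξ η / w) * f (ar2 k ‖vv ζ ξ η‖) +
        f (ar1 w n (yy ξ η)) * (f₁ (ar2 k ‖vv ζ ξ η‖) * (-E2 ζ ξ η / k))| * Real.sin η
      ≤ (|f₁ (ar1 w n (yy ξ η)) * (D2 ξ η / w) * f (ar2 k ‖vv ζ ξ η‖)| +
        |f (ar1 w n (yy ξ η)) * (f₁ (ar2 k ‖vv ζ ξ η‖) * (-E2 ζ ξ η / k))|) * Real.sin η :=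
        mul_le_mul_of_nonneg_right (abs_add_le _ _) hs
    _ ≤ M / w + 2 * M / k := by
        rw [add_mul]
        exact add_le_add c1 c2

/-! ### continuity -/

theorem contAt_vv {ζ : ℂ} {ξ η : ℝ} (hs : 0 ≤ Real.sin η) :
    ContinuousAt (fun p : ℝ × ℝ => vv ζ p.1 p.2) (ξ, η) := by
  unfold vv
  exact (continuousAt_const.mul (contAt_zf hs)).sub continuousAt_const

theorem contAt_zd {ξ η : ℝ} (hs : 0 ≤ Real.sin η) :
    ContinuousAt (fun p : ℝ × ℝ => zd (pt p.1 p.2)) (ξ, η) := by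
  have h1 : ContinuousAt (fun p : ℝ × ℝ => Complex.exp (pt p.1 p.2)) (ξ, η) := by
    unfold pt
    fun_prop
  unfold zd
  apply ContinuousAt.div
  · exact continuousAt_const.mul h1
  · exact (h1.add continuousAt_const).pow 2
  · have := den_ne (ξ := ξ) hs
    rw [add_comm] at this
    exact pow_ne_zero 2 this

theorem contAt_a1 {g : ℝ → ℝ} (hg : Continuous g) (w n : ℝ) {ξ η : ℝ}
    (hs : 0 ≤ Real.sin η) :
    ContinuousAt (fun p : ℝ × ℝ => g (ar1 w n (yy p.1 p.2))) (ξ, η) :=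
  ContinuousAt.comp (f := fun p : ℝ × ℝ => yy p.1 p.2) (g := fun y => g (ar1 w n y))
    (hg.comp (ar1_cont w n)).continuousAt (contAt_yy hs)

theorem contAt_a2 {g : ℝ → ℝ} (hg : Continuous g) (k : ℝ) {ζ : ℂ} {ξ η : ℝ}
    (hs : 0 ≤ Real.sin η) (hv : vv ζ ξ η ≠ 0) :
    ContinuousAt (fun p : ℝ × ℝ => g (ar2 k ‖vv ζ p.1 p.2‖)) (ξ, η) := by
  have h1 : ContinuousAt (fun p : ℝ × ℝ => ar2 k ‖vv ζ p.1 p.2‖) (ξ, η) := by
    unfold ar2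
    apply ContinuousAt.div_const
    apply ContinuousAt.sub continuousAt_const
    apply ContinuousAt.log
    · exact (contAt_vv hs).norm
    · exact norm_ne_zero_iff.2 hv
  exact ContinuousAt.comp (f := fun p : ℝ × ℝ => ar2 k ‖vv ζ p.1 p.2‖) (g := g)
    hg.continuousAt h1

theorem dd_cont : Continuous (fun p : ℝ × ℝ => dd p.1 p.2) := by
  unfold dd
  fun_prop

theorem contAt_D1 {ξ η : ℝ} (hs : 0 ≤ Real.sin η) :
    ContinuousAt (fun p : ℝ × ℝ => D1 p.1 p.2) (ξ, η) := by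
  have h1 := dd_ge (ξ := ξ) hs
  unfold D1
  apply ContinuousAt.sub continuousAt_const
  apply ContinuousAt.div
  · fun_prop
  · exact dd_cont.continuousAt
  · exact ne_of_gt (by linarith)

theorem contAt_D2 {ξ η : ℝ} (hs : 0 < Real.sin η) :
    ContinuousAt (fun p : ℝ × ℝ => D2 p.1 p.2) (ξ, η) := by
  have h1 := dd_ge (ξ := ξ) hs.le
  unfold D2
  apply ContinuousAt.sub
  · apply ContinuousAt.div
    · fun_prop
    · fun_prop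
    · exact hs.ne'
  · apply ContinuousAt.div
    · fun_prop
    · exact dd_cont.continuousAt
    · exact ne_of_gt (by linarith)

theorem contAt_E (u : ℂ) {ζ : ℂ} {ξ η : ℝ} (hs : 0 ≤ Real.sin η) (hv : vv ζ ξ η ≠ 0) :
    ContinuousAt (fun p : ℝ × ℝ => (ζ * (zd (pt p.1 p.2) * u) / vv ζ p.1 p.2).re) (ξ, η) := by
  have h1 : ContinuousAt (fun p : ℝ × ℝ => ζ * (zd (pt p.1 p.2) * u) / vv ζ p.1 p.2) (ξ, η) := by
    apply ContinuousAt.div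
    · exact continuousAt_const.mul ((contAt_zd hs).mul continuousAt_const)
    · exact contAt_vv hs
    · exact hv
  exact Complex.continuous_re.continuousAt.comp h1

theorem contAt_E1 {ζ : ℂ} {ξ η : ℝ} (hs : 0 ≤ Real.sin η) (hv : vv ζ ξ η ≠ 0) :
    ContinuousAt (fun p : ℝ × ℝ => E1 ζ p.1 p.2) (ξ, η) := by
  have := contAt_E 1 hs hv
  simp only [mul_one] at this
  exact this

theorem contAt_E2 {ζ : ℂ} {ξ η : ℝ} (hs : 0 ≤ Real.sin η) (hv : vv ζ ξ η ≠ 0) :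
    ContinuousAt (fun p : ℝ × ℝ => E2 ζ p.1 p.2) (ξ, η) := contAt_E I hs hv

/-- a function which vanishes where `yy` is small and is continuous elsewhere -/
theorem cont_of {F : ℝ × ℝ → ℝ} {n : ℝ} {ξ η : ℝ} (hs : 0 ≤ Real.sin η)
    (h0 : ∀ p : ℝ × ℝ, yy p.1 p.2 ≤ 8 * Real.exp (-n) → F p = 0)
    (h1 : 8 * Real.exp (-n) ≤ yy ξ η → ContinuousAt F (ξ, η)) : ContinuousAt F (ξ, η) := by
  rcases lt_or_ge (yy ξ η) (8 * Real.exp (-n)) with hy | hy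
  · have h2 : ∀ᶠ p : ℝ × ℝ in 𝓝 (ξ, η), yy p.1 p.2 < 8 * Real.exp (-n) :=
      (contAt_yy hs).eventually_lt_const hy
    have h3 : F =ᶠ[𝓝 (ξ, η)] fun _ => 0 := by
      filter_upwards [h2] with p hp
      exact h0 p hp.le
    exact continuousAt_const.congr h3.symm
  · exact h1 hy

theorem Om_cont (h : Stp f f₁ M) {k w n : ℝ} (hw : 0 < w) {ζ : ℂ} (hζ : ‖ζ‖ = 1) {ξ η : ℝ}
    (hs : 0 ≤ Real.sin η) : ContinuousAt (fun p : ℝ × ℝ => Om f k w n ζ p.1 p.2) (ξ, η) := by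
  have hn := Real.exp_pos (-n)
  refine cont_of (n := n) hs (fun p hp => Om_zero h hw ζ hp) fun hy => ?_
  have hy0 : 0 < yy ξ η := by linarith
  exact (contAt_a1 h.cf w n hs).mul (contAt_a2 h.cf k hs (vv_ne hζ hy0))

theorem Om1_cont (h : Stp f f₁ M) {k w n : ℝ} (hw : 0 < w) {ζ : ℂ} (hζ : ‖ζ‖ = 1) {ξ η : ℝ}
    (hs : 0 ≤ Real.sin η) :
    ContinuousAt (fun p : ℝ × ℝ => Om1 f f₁ k w n ζ p.1 p.2) (ξ, η) := by
  have hn := Real.exp_pos (-n)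
  refine cont_of (n := n) hs (fun p hp => Om1_zero h hw ζ hp) fun hy => ?_
  have hy0 : 0 < yy ξ η := by linarith
  have hv := vv_ne hζ hy0
  have hsp := sin_pos_of_yy hs hy0
  exact (((contAt_a1 h.c w n hs).mul ((contAt_D1 hs).div_const w)).mul
    (contAt_a2 h.cf k hs hv)).add
    ((contAt_a1 h.cf w n hs).mul ((contAt_a2 h.c k hs hv).mul
      ((contAt_E1 hs hv).neg.div_const k)))

theorem Om2_cont (h : Stp f f₁ M) {k w n : ℝ} (hw : 0 < w) {ζ : ℂ} (hζ : ‖ζ‖ = 1) {ξ η : ℝ}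
    (hs : 0 ≤ Real.sin η) :
    ContinuousAt (fun p : ℝ × ℝ => Om2 f f₁ k w n ζ p.1 p.2) (ξ, η) := by
  have hn := Real.exp_pos (-n)
  refine cont_of (n := n) hs (fun p hp => Om2_zero h hw ζ hp) fun hy => ?_
  have hy0 : 0 < yy ξ η := by linarith
  have hv := vv_ne hζ hy0
  have hsp := sin_pos_of_yy hs hy0
  exact (((contAt_a1 h.c w n hs).mul ((contAt_D2 hsp).div_const w)).mul
    (contAt_a2 h.cf k hs hv)).add
    ((contAt_a1 h.cf w n hs).mul ((contAt_a2 h.c k hs hv).mul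
      ((contAt_E2 hs hv).neg.div_const k)))

end Pool.Agent.Helper73.CK
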