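import Pool.Agent.Helper56.EK.Cutoff
import Pool.Agent.Helper52.EK.Defs
set_option autoImplicit false
open Complex Set Filter
open scoped Real Topology

/-!
# Project CK: a smooth step and the geometry of the strip map
-/

namespace Pool.Agent.Helper73.CK

open Pool.Agent.Helper52.EK
open Pool.Agent.Helper56.EK (bounded_of_zero_outside deriv_zero_left deriv_zero_right)

/-- A smooth step with bounded derivative, zero on the left of `0` and one on the right of `1`. -/
theorem step : ∃ (f f₁ : ℝ → ℝ) (M : ℝ), (∀ t, HasDerivAt f (f₁ t) t) ∧ Continuous f₁ ∧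
    (∀ t, 0 ≤ f t ∧ f t ≤ 1) ∧ (∀ t, t ≤ 0 → f t = 0) ∧ (∀ t, 1 ≤ t → f t = 1) ∧
    (∀ t, t ≤ 0 → f₁ t = 0) ∧ (∀ t, 1 ≤ t → f₁ t = 0) ∧ (∀ t, |f₁ t| ≤ M) ∧ 0 ≤ M := by
  have hs : ContDiff ℝ 1 Real.smoothTransition := Real.smoothTransition.contDiff
  have hd0 : Differentiable ℝ Real.smoothTransition := hs.differentiable (by norm_num)
  have h1 : Continuous (deriv Real.smoothTransition) := hs.continuous_deriv (by norm_num)
  have z0 : ∀ t : ℝ, t < 0 → Real.smoothTransition t = 0 := fun t ht =>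
    Real.smoothTransition.zero_of_nonpos ht.le
  have z1 : ∀ t : ℝ, 1 < t → Real.smoothTransition t = 1 := fun t ht =>
    Real.smoothTransition.one_of_one_le ht.le
  have a0 := deriv_zero_left z0
  have a1 := deriv_zero_right z1
  obtain ⟨M, hM⟩ := bounded_of_zero_outside h1 a0 a1
  refine ⟨Real.smoothTransition, deriv Real.smoothTransition, M, fun t => (hd0 t).hasDerivAt, h1,
    fun t => ⟨Real.smoothTransition.nonneg t, Real.smoothTransition.le_one t⟩,
    fun t ht => Real.smoothTransition.zero_of_nonpos ht,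
    fun t ht => Real.smoothTransition.one_of_one_le ht, ?_, ?_, hM, (abs_nonneg _).trans (hM 0)⟩
  · intro t ht
    rcases ht.lt_or_eq with h | h
    · exact a0 t h
    · subst h
      have : IsLocalMin Real.smoothTransition 0 := by
        refine Filter.Eventually.of_forall fun t => ?_
        rw [Real.smoothTransition.zero]
        exact Real.smoothTransition.nonneg t
      exact this.deriv_eq_zero
  · intro t ht
    rcases ht.lt_or_eq with h | h
    · exact a1 t h
    · subst h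
      have : IsLocalMax Real.smoothTransition 1 := by
        refine Filter.Eventually.of_forall fun t => ?_
        rw [Real.smoothTransition.one_of_one_le le_rfl]
        exact Real.smoothTransition.le_one t
      exact this.deriv_eq_zero

/-- derivative of the logarithm of the norm along a curve -/
theorem hasDerivAt_log_norm {v : ℝ → ℂ} {v' : ℂ} {t : ℝ} (h : HasDerivAt v v' t) (h0 : v t ≠ 0) :
    HasDerivAt (fun t => Real.log ‖v t‖) ((v' / v t).re) t := by
  have hre : HasDerivAt (fun t => (v t).re) v'.re t :=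
    (Complex.reCLM.hasFDerivAt.comp_hasDerivAt t h)
  have him : HasDerivAt (fun t => (v t).im) v'.im t :=
    (Complex.imCLM.hasFDerivAt.comp_hasDerivAt t h)
  have hn : Complex.normSq (v t) ≠ 0 := by simpa [Complex.normSq_eq_zero] using h0
  have h1 : HasDerivAt (fun t => (v t).re * (v t).re + (v t).im * (v t).im)
      (v'.re * (v t).re + (v t).re * v'.re + (v'.im * (v t).im + (v t).im * v'.im)) t :=
    (hre.mul hre).add (him.mul him)
  have h2 : HasDerivAt (fun t => Real.log ((v t).re * (v t).re + (v t).im * (v t).im))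
      ((v'.re * (v t).re + (v t).re * v'.re + (v'.im * (v t).im + (v t).im * v'.im)) /
        ((v t).re * (v t).re + (v t).im * (v t).im)) t :=
    h1.log (by rw [Complex.normSq_apply] at hn; exact hn)
  have h3 := h2.const_mul (1 / 2 : ℝ)
  have e1 : (fun t => Real.log ‖v t‖) =
      fun t => (1 / 2 : ℝ) * Real.log ((v t).re * (v t).re + (v t).im * (v t).im) := by
    funext s
    rw [← Complex.normSq_apply, Complex.normSq_eq_norm_sq, Real.log_pow]
    push_cast
    ring
  rw [e1]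
  refine h3.congr_deriv ?_
  rw [Complex.div_re, Complex.normSq_apply]
  rw [Complex.normSq_apply] at hn
  field_simp
  ring

/-- `|Z + i|²` in the strip coordinate -/
noncomputable def dd (ξ η : ℝ) : ℝ := Real.exp ξ ^ 2 + 2 * Real.exp ξ * Real.sin η + 1

theorem exp_pt (ξ η : ℝ) : Complex.exp (pt ξ η) =
    (Real.exp ξ * Real.cos η : ℝ) + (Real.exp ξ * Real.sin η : ℝ) * I := by
  unfold pt
  rw [Complex.exp_add_mul_I, ← Complex.ofReal_exp, ← Complex.ofReal_cos, ← Complex.ofReal_sin]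
  push_cast
  ring

theorem normSq_add (ξ η : ℝ) : ‖I + Complex.exp (pt ξ η)‖ ^ 2 = dd ξ η := by
  rw [exp_pt, ← Complex.normSq_eq_norm_sq, Complex.normSq_apply]
  simp only [Complex.add_re, Complex.I_re, Complex.ofReal_re, Complex.mul_re, Complex.ofReal_im,
    Complex.add_im, Complex.I_im, Complex.mul_im, dd]
  nlinarith [Real.sin_sq_add_cos_sq η]

theorem normSq_sub (ξ η : ℝ) : ‖I - Complex.exp (pt ξ η)‖ ^ 2 =
    Real.exp ξ ^ 2 - 2 * Real.exp ξ * Real.sin η + 1 := by
  rw [exp_pt, ← Complex.normSq_eq_norm_sq, Complex.normSq_apply]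
  simp only [Complex.sub_re, Complex.I_re, Complex.ofReal_re, Complex.mul_re, Complex.ofReal_im,
    Complex.sub_im, Complex.I_im, Complex.mul_im, Complex.add_re, Complex.add_im]
  nlinarith [Real.sin_sq_add_cos_sq η]

theorem dd_ge {ξ η : ℝ} (h : 0 ≤ Real.sin η) : 1 ≤ dd ξ η := by
  unfold dd
  have := Real.exp_pos ξ
  have h1 : 0 ≤ 2 * Real.exp ξ * Real.sin η := by positivity
  nlinarith [sq_nonneg (Real.exp ξ)]

theorem den_ne {ξ η : ℝ} (h : 0 ≤ Real.sin η) : I + Complex.exp (pt ξ η) ≠ 0 := by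
  intro h0
  have h1 := normSq_add ξ η
  rw [h0] at h1
  have h2 := dd_ge (ξ := ξ) h
  simp at h1
  linarith

theorem one_sub_zf {ξ η : ℝ} (h : 0 ≤ Real.sin η) :
    1 - ‖zf (pt ξ η)‖ ^ 2 = 4 * Real.exp ξ * Real.sin η / dd ξ η := by
  have h1 := normSq_add ξ η
  have h2 := normSq_sub ξ η
  have h3 := dd_ge (ξ := ξ) h
  unfold zf
  rw [norm_div, div_pow, h1, h2]
  have h4 : dd ξ η ≠ 0 := by linarith
  field_simp
  unfold dd
  ring

theorem zf_sub_one {ξ η : ℝ} (h : 0 ≤ Real.sin η) :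
    zf (pt ξ η) - 1 = -2 * Complex.exp (pt ξ η) / (I + Complex.exp (pt ξ η)) := by
  unfold zf
  have := den_ne (ξ := ξ) h
  field_simp
  ring

theorem norm_exp_pt (ξ η : ℝ) : ‖Complex.exp (pt ξ η)‖ = Real.exp ξ := by
  rw [Complex.norm_exp]
  simp [pt]

theorem norm_den_ge {ξ η : ℝ} (h : 0 ≤ Real.sin η) : 1 ≤ ‖I + Complex.exp (pt ξ η)‖ := by
  have h1 := normSq_add ξ η
  have h2 := dd_ge (ξ := ξ) h
  have h3 := norm_nonneg (I + Complex.exp (pt ξ η))
  nlinarith

theorem norm_zf_sub_one {ξ η : ℝ} (h : 0 ≤ Real.sin η) :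
    ‖zf (pt ξ η) - 1‖ = 2 * Real.exp ξ / ‖I + Complex.exp (pt ξ η)‖ := by
  rw [zf_sub_one h, norm_div, norm_mul, norm_exp_pt]
  norm_num

theorem norm_zd_le {ξ η : ℝ} (h : 0 ≤ Real.sin η) :
    ‖zd (pt ξ η)‖ ≤ ‖zf (pt ξ η) - 1‖ := by
  rw [norm_zf_sub_one h]
  unfold zd
  have h1 := norm_den_ge (ξ := ξ) h
  rw [norm_div, norm_mul, norm_exp_pt, norm_pow, add_comm (Complex.exp (pt ξ η)) I]
  have h2 : ‖(-2 * I : ℂ)‖ = 2 := by simp
  rw [h2]
  have h3 := Real.exp_pos ξ
  rw [div_le_div_iff₀ (by positivity) (by positivity)]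
  nlinarith [mul_nonneg (mul_nonneg (by norm_num : (0:ℝ) ≤ 2) h3.le)
    (mul_nonneg (norm_nonneg (I + Complex.exp (pt ξ η))) (sub_nonneg.2 h1))]

theorem hasDerivAt_zf {ξ η : ℝ} (h : 0 ≤ Real.sin η) : HasDerivAt zf (zd (pt ξ η)) (pt ξ η) := by
  have h0 := den_ne (ξ := ξ) h
  have h1 : HasDerivAt (fun ω : ℂ => I - Complex.exp ω) (-Complex.exp (pt ξ η)) (pt ξ η) :=
    (Complex.hasDerivAt_exp _).const_sub I
  have h2 : HasDerivAt (fun ω : ℂ => I + Complex.exp ω) (Complex.exp (pt ξ η)) (pt ξ η) :=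
    (Complex.hasDerivAt_exp _).const_add I
  have h3 := h1.div h2 h0
  have h4 : zd (pt ξ η) = (-Complex.exp (pt ξ η) * (I + Complex.exp (pt ξ η)) -
      (I - Complex.exp (pt ξ η)) * Complex.exp (pt ξ η)) / (I + Complex.exp (pt ξ η)) ^ 2 := by
    unfold zd
    rw [add_comm (Complex.exp (pt ξ η)) I]
    congr 1
    ring
  rw [h4]
  exact h3

theorem hasDerivAt_pt_xi (ξ η : ℝ) : HasDerivAt (fun ξ : ℝ => pt ξ η) 1 ξ := by
  unfold pt
  exact (Complex.ofRealCLM.hasDerivAt (x := ξ)).add_const _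

theorem hasDerivAt_pt_eta (ξ η : ℝ) : HasDerivAt (fun η : ℝ => pt ξ η) I η := by
  unfold pt
  have h := ((Complex.ofRealCLM.hasDerivAt (x := η)).mul_const I).const_add (ξ : ℂ)
  simpa using h

end Pool.Agent.Helper73.CK
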