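import Pool.Agent.Helper73.CK.Step
set_option autoImplicit false
open Complex Set Filter
open scoped Real Topology

/-!
# Project CK: the cut-off function `W0` of the variable `z0` and its two factors in the strip
-/

namespace Pool.Agent.Helper73.CK

open Pool.Agent.Helper52.EK

/-- first argument -/
noncomputable def ar1 (w n : ℝ) (y : ℝ) : ℝ :=
  (Real.log (max y (Real.exp (-n))) + n - Real.log 8) / w

/-- second argument -/
noncomputable def ar2 (k : ℝ) (r : ℝ) : ℝ := (-k - Real.log r) / k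

noncomputable def W0 (f : ℝ → ℝ) (k w n : ℝ) (z : ℂ) : ℝ :=
  f (ar1 w n (1 - ‖z‖ ^ 2)) * f (ar2 k ‖z - 1‖)

theorem ar1_cont (w n : ℝ) : Continuous (ar1 w n) := by
  unfold ar1
  have h : Continuous fun y : ℝ => Real.log (max y (Real.exp (-n))) := by
    rw [continuous_iff_continuousAt]
    intro y
    apply ContinuousAt.log
    · exact (continuous_id.max continuous_const).continuousAt
    · exact ne_of_gt (lt_of_lt_of_le (Real.exp_pos _) (le_max_right _ _))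
  exact ((h.add continuous_const).sub continuous_const).div_const w

theorem ar1_nonpos {w n y : ℝ} (hw : 0 < w) (hy : y ≤ 8 * Real.exp (-n)) : ar1 w n y ≤ 0 := by
  unfold ar1
  apply div_nonpos_of_nonpos_of_nonneg _ hw.le
  have h1 : max y (Real.exp (-n)) ≤ 8 * Real.exp (-n) :=
    max_le hy (by linarith [Real.exp_pos (-n)])
  have h2 : Real.log (max y (Real.exp (-n))) ≤ Real.log (8 * Real.exp (-n)) :=
    Real.log_le_log (lt_of_lt_of_le (Real.exp_pos _) (le_max_right _ _)) h1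
  rw [Real.log_mul (by norm_num) (Real.exp_pos _).ne', Real.log_exp] at h2
  linarith

theorem ar1_ge_one {w n y : ℝ} (hw : 0 < w) (hy : 8 * Real.exp (-(n - w)) ≤ y) :
    1 ≤ ar1 w n y := by
  unfold ar1
  rw [le_div_iff₀ hw]
  have h1 : 8 * Real.exp (-(n - w)) ≤ max y (Real.exp (-n)) := hy.trans (le_max_left _ _)
  have h2 : Real.log (8 * Real.exp (-(n - w))) ≤ Real.log (max y (Real.exp (-n))) :=
    Real.log_le_log (by positivity) h1
  rw [Real.log_mul (by norm_num) (Real.exp_pos _).ne', Real.log_exp] at h2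
  linarith

theorem ar2_nonpos {k r : ℝ} (hk : 0 < k) (hr : Real.exp (-k) ≤ r) : ar2 k r ≤ 0 := by
  unfold ar2
  apply div_nonpos_of_nonpos_of_nonneg _ hk.le
  have h2 := Real.log_le_log (Real.exp_pos _) hr
  rw [Real.log_exp] at h2
  linarith

theorem ar2_ge_one {k r : ℝ} (hk : 0 < k) (hr0 : 0 < r) (hr : r ≤ Real.exp (-(2 * k))) :
    1 ≤ ar2 k r := by
  unfold ar2
  rw [le_div_iff₀ hk]
  have h2 := Real.log_le_log hr0 hr
  rw [Real.log_exp] at h2
  linarith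

variable {f f₁ : ℝ → ℝ} {M : ℝ}

/-- the properties of the step -/
structure Stp (f f₁ : ℝ → ℝ) (M : ℝ) : Prop where
  d : ∀ t, HasDerivAt f (f₁ t) t
  c : Continuous f₁
  b : ∀ t, 0 ≤ f t ∧ f t ≤ 1
  z : ∀ t, t ≤ 0 → f t = 0
  o : ∀ t, 1 ≤ t → f t = 1
  z1 : ∀ t, t ≤ 0 → f₁ t = 0
  o1 : ∀ t, 1 ≤ t → f₁ t = 0
  m : ∀ t, |f₁ t| ≤ M
  m0 : 0 ≤ M

theorem exists_stp : ∃ (f f₁ : ℝ → ℝ) (M : ℝ), Stp f f₁ M := by
  obtain ⟨f, f₁, M, a1, a2, a3, a4, a5, a6, a7, a8, a9⟩ := step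
  exact ⟨f, f₁, M, ⟨a1, a2, a3, a4, a5, a6, a7, a8, a9⟩⟩

theorem Stp.cf (h : Stp f f₁ M) : Continuous f :=
  continuous_iff_continuousAt.2 fun t => (h.d t).continuousAt

theorem W0_bd (h : Stp f f₁ M) (k w n : ℝ) (z : ℂ) : 0 ≤ W0 f k w n z ∧ W0 f k w n z ≤ 1 := by
  have h1 := h.b (ar1 w n (1 - ‖z‖ ^ 2))
  have h2 := h.b (ar2 k ‖z - 1‖)
  exact ⟨mul_nonneg h1.1 h2.1, mul_le_one₀ h1.2 h2.1 h2.2⟩

theorem W0_zero1 (h : Stp f f₁ M) {k w n : ℝ} (hw : 0 < w) {z : ℂ}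
    (hz : 1 - ‖z‖ ^ 2 ≤ 8 * Real.exp (-n)) : W0 f k w n z = 0 := by
  unfold W0
  rw [h.z _ (ar1_nonpos hw hz), zero_mul]

theorem W0_zero2 (h : Stp f f₁ M) {k w n : ℝ} (hk : 0 < k) {z : ℂ}
    (hz : Real.exp (-k) ≤ ‖z - 1‖) : W0 f k w n z = 0 := by
  unfold W0
  rw [h.z _ (ar2_nonpos hk hz), mul_zero]

theorem W0_one (h : Stp f f₁ M) {k w n : ℝ} (hk : 0 < k) (hw : 0 < w) {z : ℂ}
    (h1 : 8 * Real.exp (-(n - w)) ≤ 1 - ‖z‖ ^ 2) (h2 : ‖z - 1‖ ≤ Real.exp (-(2 * k))) :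
    W0 f k w n z = 1 := by
  have h3 : 0 < ‖z - 1‖ := by
    rw [norm_pos_iff]
    intro h0
    rw [sub_eq_zero] at h0
    subst h0
    have h5 := Real.exp_pos (-(n - w))
    rw [norm_one, one_pow, sub_self] at h1
    linarith
  unfold W0
  rw [h.o _ (ar1_ge_one hw h1), h.o _ (ar2_ge_one hk h3 h2), mul_one]

theorem W0_cont (h : Stp f f₁ M) (k : ℝ) {w : ℝ} (n : ℝ) (hw : 0 < w) :
    Continuous (W0 f k w n) := by
  rw [continuous_iff_continuousAt]
  intro z
  have c1 : Continuous fun z : ℂ => f (ar1 w n (1 - ‖z‖ ^ 2)) :=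
    h.cf.comp ((ar1_cont w n).comp (by fun_prop))
  by_cases hz : z = 1
  · have h1 : ∀ᶠ z' : ℂ in 𝓝 z, 1 - ‖z'‖ ^ 2 < 8 * Real.exp (-n) := by
      have h2 : ContinuousAt (fun z' : ℂ => 1 - ‖z'‖ ^ 2) z := by fun_prop
      apply h2.eventually_lt_const
      rw [hz]
      simp only [norm_one, one_pow, sub_self]
      positivity
    have h3 : W0 f k w n =ᶠ[𝓝 z] fun _ => 0 := by
      filter_upwards [h1] with z' hz'
      exact W0_zero1 h hw hz'.le
    exact (continuousAt_const).congr h3.symm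
  · have c2 : ContinuousAt (fun z : ℂ => f (ar2 k ‖z - 1‖)) z := by
      apply h.cf.continuousAt.comp
      unfold ar2
      apply ContinuousAt.div_const
      apply ContinuousAt.sub continuousAt_const
      apply ContinuousAt.log
      · fun_prop
      · exact norm_ne_zero_iff.2 (sub_ne_zero.2 hz)
    exact c1.continuousAt.mul c2

/-! ### in the strip -/

noncomputable def yy (ξ η : ℝ) : ℝ := 1 - ‖zf (pt ξ η)‖ ^ 2

noncomputable def D1 (ξ η : ℝ) : ℝ :=
  1 - 2 * (Real.exp ξ ^ 2 + Real.exp ξ * Real.sin η) / dd ξ η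

noncomputable def D2 (ξ η : ℝ) : ℝ :=
  Real.cos η / Real.sin η - 2 * Real.exp ξ * Real.cos η / dd ξ η

theorem abs_D1 {ξ η : ℝ} (h : 0 ≤ Real.sin η) : |D1 ξ η| ≤ 1 := by
  have h1 := dd_ge (ξ := ξ) h
  have h2 := Real.exp_pos ξ
  have h3 : 0 ≤ Real.exp ξ * Real.sin η := by positivity
  unfold D1
  have h4 : 0 ≤ 2 * (Real.exp ξ ^ 2 + Real.exp ξ * Real.sin η) / dd ξ η := by positivity
  have h5 : 2 * (Real.exp ξ ^ 2 + Real.exp ξ * Real.sin η) / dd ξ η ≤ 2 := by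
    rw [div_le_iff₀ (by linarith)]
    unfold dd
    nlinarith
  rw [abs_le]
  constructor <;> linarith

theorem abs_D2 {ξ η : ℝ} (h : 0 ≤ Real.sin η) : |D2 ξ η| * Real.sin η ≤ 1 := by
  have h1 := dd_ge (ξ := ξ) h
  have h2 := Real.exp_pos ξ
  rcases h.eq_or_lt with h0 | h0
  · rw [← h0]; simp
  · have h3 : 0 ≤ Real.exp ξ * Real.sin η := by positivity
    have e : |D2 ξ η| * Real.sin η =
        |Real.cos η| * |1 - 2 * Real.exp ξ * Real.sin η / dd ξ η| := by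
      rw [← abs_of_pos h0, ← abs_mul, ← abs_mul, abs_of_pos h0]
      congr 1
      unfold D2
      field_simp
    rw [e]
    have h4 : 0 ≤ 2 * Real.exp ξ * Real.sin η / dd ξ η := by positivity
    have h5 : 2 * Real.exp ξ * Real.sin η / dd ξ η ≤ 1 := by
      rw [div_le_iff₀ (by linarith)]
      unfold dd
      nlinarith [sq_nonneg (Real.exp ξ)]
    have h6 : |1 - 2 * Real.exp ξ * Real.sin η / dd ξ η| ≤ 1 := by
      rw [abs_le]; constructor <;> linarith
    have h7 := Real.abs_cos_le_one η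
    exact mul_le_one₀ h7 (abs_nonneg _) h6

theorem sin_pos_of_yy {ξ η : ℝ} (h : 0 ≤ Real.sin η) (hy : 0 < yy ξ η) : 0 < Real.sin η := by
  rcases h.eq_or_lt with h0 | h0
  · unfold yy at hy
    rw [one_sub_zf h, ← h0] at hy
    simp at hy
  · exact h0

theorem log_yy {ξ η : ℝ} (h : 0 < Real.sin η) :
    Real.log (yy ξ η) = Real.log 4 + ξ + Real.log (Real.sin η) - Real.log (dd ξ η) := by
  have h1 := dd_ge (ξ := ξ) h.le
  have h2 := Real.exp_pos ξ
  unfold yy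
  rw [one_sub_zf h.le, Real.log_div (by positivity) (by linarith), Real.log_mul (by positivity)
    h.ne', Real.log_mul (by norm_num) h2.ne', Real.log_exp]

theorem hasDerivAt_dd_xi (ξ η : ℝ) : HasDerivAt (fun ξ => dd ξ η)
    (2 * (Real.exp ξ ^ 2 + Real.exp ξ * Real.sin η)) ξ := by
  unfold dd
  have h1 := (((Real.hasDerivAt_exp ξ).pow 2).add
    (((Real.hasDerivAt_exp ξ).const_mul 2).mul_const (Real.sin η))).add_const 1
  refine h1.congr_deriv ?_
  push_cast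
  ring

theorem hasDerivAt_dd_eta (ξ η : ℝ) : HasDerivAt (fun η => dd ξ η)
    (2 * Real.exp ξ * Real.cos η) η := by
  unfold dd
  have h1 := ((((Real.hasDerivAt_sin η).const_mul (2 * Real.exp ξ)).const_add
    (Real.exp ξ ^ 2))).add_const 1
  exact h1

theorem hasDerivAt_logyy_xi {ξ η : ℝ} (h : 0 < Real.sin η) :
    HasDerivAt (fun ξ => Real.log (yy ξ η)) (D1 ξ η) ξ := by
  have h1 := dd_ge (ξ := ξ) h.le
  have e : (fun ξ => Real.log (yy ξ η)) =
      fun ξ => Real.log 4 + ξ + Real.log (Real.sin η) - Real.log (dd ξ η) := by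
    funext t
    exact log_yy h
  rw [e]
  have h2 := (((hasDerivAt_id ξ).const_add (Real.log 4)).add_const (Real.log (Real.sin η))).sub
    ((hasDerivAt_dd_xi ξ η).log (by linarith))
  exact h2

theorem hasDerivAt_logyy_eta {ξ η : ℝ} (h : 0 < Real.sin η) :
    HasDerivAt (fun η => Real.log (yy ξ η)) (D2 ξ η) η := by
  have h1 := dd_ge (ξ := ξ) h.le
  have e : (fun η => Real.log (yy ξ η)) =ᶠ[𝓝 η]
      fun η => Real.log 4 + ξ + Real.log (Real.sin η) - Real.log (dd ξ η) := by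
    have h3 : ∀ᶠ t in 𝓝 η, 0 < Real.sin t :=
      Real.continuous_sin.continuousAt.eventually_const_lt h
    filter_upwards [h3] with t ht
    exact log_yy ht
  have h2 := (((Real.hasDerivAt_sin η).log h.ne').const_add (Real.log 4 + ξ)).sub
    ((hasDerivAt_dd_eta ξ η).log (by linarith))
  exact h2.congr_of_eventuallyEq e

/-- continuity of `zf ∘ pt` at the points of the closed strip -/
theorem contAt_zf {ξ η : ℝ} (h : 0 ≤ Real.sin η) :
    ContinuousAt (fun p : ℝ × ℝ => zf (pt p.1 p.2)) (ξ, η) := by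
  have h1 : ContinuousAt (fun p : ℝ × ℝ => pt p.1 p.2) (ξ, η) := by
    unfold pt
    fun_prop
  exact ContinuousAt.comp (f := fun p : ℝ × ℝ => pt p.1 p.2) (g := zf)
    (hasDerivAt_zf h).continuousAt h1

theorem contAt_yy {ξ η : ℝ} (h : 0 ≤ Real.sin η) :
    ContinuousAt (fun p : ℝ × ℝ => yy p.1 p.2) (ξ, η) := by
  unfold yy
  exact continuousAt_const.sub ((contAt_zf h).norm.pow 2)

theorem yy_le {ξ η : ℝ} (h : 0 ≤ Real.sin η) : yy ξ η ≤ 4 * Real.exp ξ := by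
  have h1 := dd_ge (ξ := ξ) h
  have h2 := Real.exp_pos ξ
  unfold yy
  rw [one_sub_zf h, div_le_iff₀ (by linarith)]
  have h3 := Real.sin_le_one η
  nlinarith [mul_le_mul_of_nonneg_left h1 (by positivity : (0:ℝ) ≤ 4 * Real.exp ξ)]

theorem yy_ge {ξ η : ℝ} (h : 0 ≤ Real.sin η) (hξ : ξ ≤ -1) :
    2 * Real.exp ξ * Real.sin η ≤ yy ξ η := by
  have h1 := dd_ge (ξ := ξ) h
  have h2 := Real.exp_pos ξ
  have h3 := Real.sin_le_one η
  have h4 : Real.exp ξ ≤ 0.4 := by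
    have := Real.exp_le_exp.2 hξ
    have h9 : Real.exp (-1) < 0.3678794412 := Real.exp_neg_one_lt_d9
    linarith
  have h5 : dd ξ η ≤ 2 := by
    unfold dd
    nlinarith
  unfold yy
  rw [one_sub_zf h, le_div_iff₀ (by linarith)]
  have h6 : 0 ≤ Real.exp ξ * Real.sin η := by positivity
  nlinarith

theorem zf_lt_one {ξ η : ℝ} (hy : 0 < yy ξ η) : ‖zf (pt ξ η)‖ < 1 := by
  unfold yy at hy
  have := norm_nonneg (zf (pt ξ η))
  nlinarith

end Pool.Agent.Helper73.CK
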